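import Mathlib

/-!
# Two-element `B_h` sets over `ℤ`

A finite abelian group which contains a two-element `B_h` set over `ℤ` has at least `(h+1)^2`
elements. The cyclic group `ℤ_n` contains one iff `n ≥ (h+1)^2`, when `h` is even or `n` is odd,
and iff `n ≥ (h+1)(h+2)`, when `h` is odd and `n` is even.

Put `c = a + b` and `d = a - b`. The differences of the coefficient vectors of `ℤ²(h)` are, in the
coordinates given by `c, d`, exactly the integer vectors in the square `[-h,h]²`; so `{a, b}` is a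
`B_h` set over `ℤ` iff the `(h+1)²` elements `u c + v d`, `0 ≤ u, v ≤ h`, are distinct. For `h` odd
and `n` even, `c` and `d` have the same parity. If both are even, then `n ≥ 2(h+1)^2`. If both are
odd and `n < (h+1)(h+2)`, the pigeonhole principle gives relations `(h+1) c + y d = 0` and
`x c + (h+1) d = 0` with `|x|, |y| ≤ h` even; they generate all the relations, so every relation
has even coefficients, which is false for `d·c - c·d = 0`.
-/

open Finset

namespace Pool.Agent.Results.MP_824cb5_co.TwoElements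

/-- `a` lists the `m` distinct elements of a `B_h` set over `ℤ`: distinct coefficient vectors
with `∑ |l i| = h` give distinct elements. -/
def IsBh {G : Type} [AddCommGroup G] (h m : ℕ) (a : Fin m → G) : Prop :=
  Function.Injective a ∧ ∀ l l' : Fin m → ℤ, ∑ i, |l i| = (h : ℤ) → ∑ i, |l' i| = (h : ℤ) →
    ∑ i, l i • a i = ∑ i, l' i • a i → l = l'

/-- `σ_±(G,h) ≥ m` for `m ≥ 1`: `G` contains an `m`-element `B_h` set over `ℤ`. -/
def HasBh (G : Type) [AddCommGroup G] (h m : ℕ) : Prop := ∃ a : Fin m → G, IsBh h m a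

/-- The differences, in the coordinates `a + b`, `a - b`. -/
lemma key {G : Type} [AddCommGroup G] {h : ℕ} {a : Fin 2 → G} (ha : IsBh h 2 a) {x y : ℤ}
    (hx : |x| ≤ h) (hy : |y| ≤ h) (h0 : x • (a 0 + a 1) + y • (a 0 - a 1) = 0) : x = 0 ∧ y = 0 := by
  rw [abs_le] at hx hy
  have h1 : (x + y) • a 0 + (x - y) • a 1 = 0 := by
    rw [← h0]; module
  have go : ∀ p q r s : ℤ, |p| + |q| = h → |r| + |s| = h →
      (p - r = x + y ∧ q - s = x - y ∨ p - r = -(x + y) ∧ q - s = -(x - y)) → x = 0 ∧ y = 0 := by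
    intro p q r s hpq hrs hd
    have hsum : p • a 0 + q • a 1 = r • a 0 + s • a 1 := by
      have : (p - r) • a 0 + (q - s) • a 1 = 0 := by
        rcases hd with ⟨e1, e2⟩ | ⟨e1, e2⟩
        · rw [e1, e2, h1]
        · rw [e1, e2]
          have : -(x + y) • a 0 + -(x - y) • a 1 = -((x + y) • a 0 + (x - y) • a 1) := by module
          rw [this, h1, neg_zero]
      have e : p • a 0 + q • a 1 = ((p - r) • a 0 + (q - s) • a 1) + (r • a 0 + s • a 1) := by
        module
      rw [e, this, zero_add]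
    have := ha.2 ![p, q] ![r, s] (by simpa [Fin.sum_univ_two] using hpq)
      (by simpa [Fin.sum_univ_two] using hrs) (by simpa [Fin.sum_univ_two] using hsum)
    have e0 := congrFun this 0
    have e1 := congrFun this 1
    simp at e0 e1
    rcases hd with ⟨d1, d2⟩ | ⟨d1, d2⟩
    · constructor <;> omega
    · constructor <;> omega
  rcases le_total 0 x with px | px <;> rcases le_total 0 y with py | py
  · refine go y (h - y) (-x) (h - x) ?_ ?_ (Or.inl ⟨by ring, by ring⟩)
    · rw [abs_of_nonneg py, abs_of_nonneg (by linarith)]; ring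
    · rw [abs_of_nonpos (by linarith), abs_of_nonneg (by linarith)]; ring
  · refine go (h + y) (-y) (h - x) (-x) ?_ ?_ (Or.inl ⟨by ring, by ring⟩)
    · rw [abs_of_nonneg (by linarith), abs_of_nonneg (by linarith)]; ring
    · rw [abs_of_nonneg (by linarith), abs_of_nonpos (by linarith)]; ring
  · refine go (h - y) y (h + x) x ?_ ?_ (Or.inr ⟨by ring, by ring⟩)
    · rw [abs_of_nonneg (by linarith), abs_of_nonneg py]; ring
    · rw [abs_of_nonneg (by linarith), abs_of_nonpos px]; ring
  · refine go (-y) (h + y) x (h + x) ?_ ?_ (Or.inr ⟨by ring, by ring⟩)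
    · rw [abs_of_nonneg (by linarith), abs_of_nonneg (by linarith)]; ring
    · rw [abs_of_nonpos px, abs_of_nonneg (by linarith)]; ring

/-- A finite abelian group with a two-element `B_h` set over `ℤ` has at least `(h+1)^2`
elements. -/
theorem lower {G : Type} [AddCommGroup G] [Finite G] {h : ℕ} (H : HasBh G h 2) :
    (h + 1) ^ 2 ≤ Nat.card G := by
  obtain ⟨a, ha⟩ := H
  have hinj : Function.Injective (fun p : Fin (h + 1) × Fin (h + 1) =>
      ((p.1 : ℕ) : ℤ) • (a 0 + a 1) + ((p.2 : ℕ) : ℤ) • (a 0 - a 1)) := by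
    rintro ⟨u, v⟩ ⟨u', v'⟩ he
    simp only at he
    have hu := u.2
    have hu' := u'.2
    have hv := v.2
    have hv' := v'.2
    have h0 : (((u : ℕ) : ℤ) - ((u' : ℕ) : ℤ)) • (a 0 + a 1) +
        (((v : ℕ) : ℤ) - ((v' : ℕ) : ℤ)) • (a 0 - a 1) = 0 := by
      rw [sub_smul, sub_smul]
      have : ∀ p q r s : G, p + r = q + s → p - q + (r - s) = 0 := by
        intro p q r s h
        have e : p - q + (r - s) = (p + r) - (q + s) := by abel
        rw [e, h, sub_self]
      exact this _ _ _ _ he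
    obtain ⟨e1, e2⟩ := key ha (x := ((u : ℕ) : ℤ) - ((u' : ℕ) : ℤ))
      (y := ((v : ℕ) : ℤ) - ((v' : ℕ) : ℤ)) (by rw [abs_le]; constructor <;> omega)
      (by rw [abs_le]; constructor <;> omega) h0
    ext
    · show (u : ℕ) = (u' : ℕ)
      omega
    · show (v : ℕ) = (v' : ℕ)
      omega
  have := Nat.card_le_card_of_injective _ hinj
  rw [Nat.card_prod, Nat.card_eq_fintype_card, Fintype.card_fin] at this
  rw [sq]
  exact this

/-- In `ℤ_n` with `n ≥ (h+1)^2`, two elements with sum `1` and difference `h+1` form a `B_h` set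
over `ℤ`. -/
theorem upper {n h : ℕ} (hh : 1 ≤ h) (hn : (h + 1) ^ 2 ≤ n) (a b : ZMod n) (h1 : a + b = 1)
    (h2 : a - b = ((h : ℤ) : ZMod n) + 1) : HasBh (ZMod n) h 2 := by
  have main : ∀ p q r s : ℤ, |p| + |q| = h → |r| + |s| = h →
      (p : ZMod n) * a + (q : ZMod n) * b = (r : ZMod n) * a + (s : ZMod n) * b →
      p = r ∧ q = s := by
    intro p q r s hpq hrs he
    have par : ∃ x : ℤ, (p - r) + (q - s) = 2 * x := by
      rcases abs_cases p with ⟨e1, -⟩ | ⟨e1, -⟩ <;> rcases abs_cases q with ⟨e2, -⟩ | ⟨e2, -⟩ <;>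
      rcases abs_cases r with ⟨e3, -⟩ | ⟨e3, -⟩ <;> rcases abs_cases s with ⟨e4, -⟩ | ⟨e4, -⟩ <;>
      (rw [e1, e2] at hpq; rw [e3, e4] at hrs;
       refine ⟨((p - r) + (q - s)) / 2, ?_⟩; omega)
    obtain ⟨x, hx⟩ := par
    obtain ⟨y, hy⟩ : ∃ y, p - r = x + y := ⟨p - r - x, by ring⟩
    have hy2 : q - s = x - y := by linarith
    have hp := abs_le.1 (le_refl |p|)
    have hq := abs_le.1 (le_refl |q|)
    have hr := abs_le.1 (le_refl |r|)
    have hs := abs_le.1 (le_refl |s|)
    have bx : -(h : ℤ) ≤ x ∧ x ≤ h := by constructor <;> linarith [hp.1, hp.2, hq.1, hq.2, hr.1, hr.2, hs.1, hs.2]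
    have by' : -(h : ℤ) ≤ y ∧ y ≤ h := by constructor <;> linarith [hp.1, hp.2, hq.1, hq.2, hr.1, hr.2, hs.1, hs.2]
    have hz : ((x + (h + 1) * y : ℤ) : ZMod n) = 0 := by
      have e1 : ((p - r : ℤ) : ZMod n) * a + ((q - s : ℤ) : ZMod n) * b = 0 := by
        push_cast
        linear_combination he
      rw [hy, hy2] at e1
      push_cast at e1 ⊢
      have e2 : ((h : ℤ) : ZMod n) = (h : ZMod n) := by push_cast; rfl
      rw [e2] at h2
      linear_combination e1 - (x : ZMod n) * h1 - (y : ZMod n) * h2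
    rw [ZMod.intCast_zmod_eq_zero_iff_dvd] at hz
    have hnz : ((h : ℤ) + 1) ^ 2 ≤ n := by exact_mod_cast hn
    have hzero : x + (h + 1) * y = 0 := by
      apply Int.eq_zero_of_abs_lt_dvd hz
      rw [abs_lt]
      constructor
      · nlinarith [bx.1, bx.2, by'.1, by'.2]
      · nlinarith [bx.1, bx.2, by'.1, by'.2]
    have hy0 : y = 0 := by
      by_contra hne
      rcases lt_or_gt_of_ne hne with hl | hl
      · have : y ≤ -1 := by omega
        nlinarith [bx.1, bx.2]
      · have : 1 ≤ y := by omega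
        nlinarith [bx.1, bx.2]
    have hx0 : x = 0 := by rw [hy0] at hzero; linarith
    rw [hx0, hy0] at hy hy2
    constructor <;> linarith
  refine ⟨![a, b], ?_, ?_⟩
  · have hab : a ≠ b := by
      intro hab
      have := main h 0 0 h (by simp) (by simp) (by rw [hab]; push_cast; ring)
      omega
    intro i j hij
    fin_cases i <;> fin_cases j
    · rfl
    · exact absurd hij hab
    · exact absurd hij.symm hab
    · rfl
  · intro l l' hl hl' he
    simp only [Fin.sum_univ_two, Matrix.cons_val_zero, Matrix.cons_val_one, zsmul_eq_mul] at hl hl' he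
    obtain ⟨e0, e1⟩ := main (l 0) (l 1) (l' 0) (l' 1) hl hl' he
    funext i
    fin_cases i
    · exact e0
    · exact e1

/-- For cyclic groups, when `h` is even or `n` is odd, the bound is sharp. -/
theorem cyclic {n h : ℕ} (hn : 1 ≤ n) (hh : 1 ≤ h) (hpar : Even h ∨ Odd n) :
    HasBh (ZMod n) h 2 ↔ (h + 1) ^ 2 ≤ n := by
  haveI : NeZero n := ⟨by omega⟩
  constructor
  · intro H
    have := lower H
    rwa [Nat.card_zmod] at this
  · intro hle
    rcases hpar with ⟨k, hk⟩ | ⟨k, hk⟩
    · refine upper hh hle ((k : ZMod n) + 1) (-(k : ZMod n)) (by ring) ?_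
      subst hk
      push_cast
      ring
    · have h2 : (2 : ZMod n) * ((k : ZMod n) + 1) = 1 := by
        have : ((2 * k + 1 : ℕ) : ZMod n) = 0 := by rw [← hk]; exact ZMod.natCast_self n
        push_cast at this
        linear_combination this
      refine upper hh hle (((h : ZMod n) + 2) * ((k : ZMod n) + 1)) (-(h : ZMod n) * ((k : ZMod n) + 1))
        ?_ ?_
      · linear_combination h2
      · push_cast
        linear_combination ((h : ZMod n) + 1) * h2

/-- In `ℤ_n` with `n ≥ (h+1)(h+2)` and `h` odd, there is a two-element `B_h` set over `ℤ`. -/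
theorem upper_odd {n h : ℕ} (hh : 1 ≤ h) (hn : (h + 1) * (h + 2) ≤ n) (a b : ZMod n)
    (h1 : a + b = 1) (h2 : a - b = (h : ZMod n) + 2) : HasBh (ZMod n) h 2 := by
  have main : ∀ p q r s : ℤ, |p| + |q| = h → |r| + |s| = h →
      (p : ZMod n) * a + (q : ZMod n) * b = (r : ZMod n) * a + (s : ZMod n) * b →
      p = r ∧ q = s := by
    intro p q r s hpq hrs he
    have par : ∃ x : ℤ, (p - r) + (q - s) = 2 * x := by
      rcases abs_cases p with ⟨e1, -⟩ | ⟨e1, -⟩ <;> rcases abs_cases q with ⟨e2, -⟩ | ⟨e2, -⟩ <;>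
      rcases abs_cases r with ⟨e3, -⟩ | ⟨e3, -⟩ <;> rcases abs_cases s with ⟨e4, -⟩ | ⟨e4, -⟩ <;>
      (rw [e1, e2] at hpq; rw [e3, e4] at hrs;
       refine ⟨((p - r) + (q - s)) / 2, ?_⟩; omega)
    obtain ⟨x, hx⟩ := par
    obtain ⟨y, hy⟩ : ∃ y, p - r = x + y := ⟨p - r - x, by ring⟩
    have hy2 : q - s = x - y := by linarith
    have hp := abs_le.1 (le_refl |p|)
    have hq := abs_le.1 (le_refl |q|)
    have hr := abs_le.1 (le_refl |r|)
    have hs := abs_le.1 (le_refl |s|)
    have bx : -(h : ℤ) ≤ x ∧ x ≤ h := by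
      constructor <;> linarith [hp.1, hp.2, hq.1, hq.2, hr.1, hr.2, hs.1, hs.2]
    have by' : -(h : ℤ) ≤ y ∧ y ≤ h := by
      constructor <;> linarith [hp.1, hp.2, hq.1, hq.2, hr.1, hr.2, hs.1, hs.2]
    have hz : ((x + (h + 2) * y : ℤ) : ZMod n) = 0 := by
      have e1 : ((p - r : ℤ) : ZMod n) * a + ((q - s : ℤ) : ZMod n) * b = 0 := by
        push_cast
        linear_combination he
      rw [hy, hy2] at e1
      push_cast at e1 ⊢
      linear_combination e1 - (x : ZMod n) * h1 - (y : ZMod n) * h2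
    rw [ZMod.intCast_zmod_eq_zero_iff_dvd] at hz
    have hnz : ((h : ℤ) + 1) * (h + 2) ≤ n := by exact_mod_cast hn
    have hzero : x + (h + 2) * y = 0 := by
      apply Int.eq_zero_of_abs_lt_dvd hz
      rw [abs_lt]
      constructor
      · nlinarith [bx.1, bx.2, by'.1, by'.2]
      · nlinarith [bx.1, bx.2, by'.1, by'.2]
    have hy0 : y = 0 := by
      by_contra hne
      rcases lt_or_gt_of_ne hne with hl | hl
      · have : y ≤ -1 := by omega
        nlinarith [bx.1, bx.2]
      · have : 1 ≤ y := by omega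
        nlinarith [bx.1, bx.2]
    have hx0 : x = 0 := by rw [hy0] at hzero; linarith
    rw [hx0, hy0] at hy hy2
    constructor <;> linarith
  refine ⟨![a, b], ?_, ?_⟩
  · have hab : a ≠ b := by
      intro hab
      have := main h 0 0 h (by simp) (by simp) (by rw [hab]; push_cast; ring)
      omega
    intro i j hij
    fin_cases i <;> fin_cases j
    · rfl
    · exact absurd hij hab
    · exact absurd hij.symm hab
    · rfl
  · intro l l' hl hl' he
    simp only [Fin.sum_univ_two, Matrix.cons_val_zero, Matrix.cons_val_one, zsmul_eq_mul] at hl hl' he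
    obtain ⟨e0, e1⟩ := main (l 0) (l 1) (l' 0) (l' 1) hl hl' he
    funext i
    fin_cases i
    · exact e0
    · exact e1

/-- For `h` odd and `n` even, `n ≥ (h+1)(h+2)` is necessary. -/
theorem lower_odd {n h : ℕ} (hn : 1 ≤ n) (hh : Odd h) (hne : Even n) (H : HasBh (ZMod n) h 2) :
    (h + 1) * (h + 2) ≤ n := by
  haveI : NeZero n := ⟨by omega⟩
  have hlow : (h + 1) ^ 2 ≤ n := by
    have := lower H
    rwa [Nat.card_zmod] at this
  obtain ⟨a, ha⟩ := H
  by_contra hlt
  push Not at hlt
  obtain ⟨c, hc⟩ : ∃ c, c = a 0 + a 1 := ⟨_, rfl⟩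
  obtain ⟨d, hd⟩ : ∃ d, d = a 0 - a 1 := ⟨_, rfl⟩
  have K : ∀ x y : ℤ, |x| ≤ h → |y| ≤ h → (x : ZMod n) * c + (y : ZMod n) * d = 0 →
      x = 0 ∧ y = 0 := by
    intro x y hx hy h0
    apply key ha hx hy
    rw [← hc, ← hd, zsmul_eq_mul, zsmul_eq_mul]
    exact h0
  let φ : ZMod n →+* ZMod 2 := ZMod.castHom hne.two_dvd (ZMod 2)
  have h22 : (2 : ZMod 2) = 0 := by decide
  have hcd : φ c = φ d := by
    have : c = d + 2 * a 1 := by rw [hc, hd]; ring
    rw [this, map_add, map_mul, map_ofNat, h22]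
    ring
  have hHe : (((h : ℤ) + 1 : ℤ) : ZMod 2) = 0 := by
    obtain ⟨k, hk⟩ := hh
    rw [hk]
    push_cast
    linear_combination ((k : ZMod 2) + 1) * h22
  rcases (show ∀ z : ZMod 2, z = 0 ∨ z = 1 by decide) (φ c) with hz | ho
  · -- both even: twice as many elements
    have hinj : Function.Injective (fun p : Fin (h + 1) × Fin (h + 1) × Fin 2 =>
        ((p.1 : ℕ) : ZMod n) * c + ((p.2.1 : ℕ) : ZMod n) * d + ((p.2.2 : ℕ) : ZMod n)) := by
      rintro ⟨u, v, e⟩ ⟨u', v', e'⟩ he
      simp only at he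
      have hφ := congrArg φ he
      simp only [map_add, map_mul, map_natCast, ← hcd, hz, mul_zero, zero_add] at hφ
      have hee : e = e' := (show ∀ e e' : Fin 2, ((e : ℕ) : ZMod 2) = ((e' : ℕ) : ZMod 2) → e = e' by
        decide) e e' hφ
      subst hee
      have hu := u.2
      have hu' := u'.2
      have hv := v.2
      have hv' := v'.2
      obtain ⟨e1, e2⟩ := K (((u : ℕ) : ℤ) - ((u' : ℕ) : ℤ)) (((v : ℕ) : ℤ) - ((v' : ℕ) : ℤ))
        (by rw [abs_le]; constructor <;> omega) (by rw [abs_le]; constructor <;> omega)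
        (by push_cast; linear_combination he)
      have f1 : u = u' := Fin.ext (by omega)
      have f2 : v = v' := Fin.ext (by omega)
      rw [f1, f2]
    have := Nat.card_le_card_of_injective _ hinj
    rw [Nat.card_prod, Nat.card_prod, Nat.card_zmod] at this
    simp only [Nat.card_eq_fintype_card, Fintype.card_fin] at this
    nlinarith
  · -- both odd
    have ho' : φ d = 1 := by rw [← hcd]; exact ho
    -- two short relations
    have R1 : ∃ y : ℤ, |y| ≤ h ∧ (((h : ℤ) + 1 : ℤ) : ZMod n) * c + (y : ZMod n) * d = 0 := by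
      have hcardlt : Fintype.card (ZMod n) < Fintype.card (Fin (h + 2) × Fin (h + 1)) := by
        rw [ZMod.card, Fintype.card_prod, Fintype.card_fin, Fintype.card_fin]
        nlinarith
      obtain ⟨⟨u, v⟩, ⟨u', v'⟩, hne', he⟩ := Fintype.exists_ne_map_eq_of_card_lt
        (fun p : Fin (h + 2) × Fin (h + 1) => ((p.1 : ℕ) : ZMod n) * c + ((p.2 : ℕ) : ZMod n) * d)
        hcardlt
      simp only at he
      have hu := u.2
      have hu' := u'.2
      have hv := v.2
      have hv' := v'.2
      have hrel : ((((u : ℕ) : ℤ) - ((u' : ℕ) : ℤ) : ℤ) : ZMod n) * c +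
          ((((v : ℕ) : ℤ) - ((v' : ℕ) : ℤ) : ℤ) : ZMod n) * d = 0 := by
        push_cast; linear_combination he
      by_cases hbig : |(((u : ℕ) : ℤ) - ((u' : ℕ) : ℤ))| ≤ h
      · exfalso
        obtain ⟨e1, e2⟩ := K _ _ hbig (by rw [abs_le]; constructor <;> omega) hrel
        apply hne'
        have f1 : u = u' := Fin.ext (by omega)
        have f2 : v = v' := Fin.ext (by omega)
        rw [f1, f2]
      · rw [abs_le, not_and_or] at hbig
        rcases hbig with hb | hb
        · have e : ((u : ℕ) : ℤ) - ((u' : ℕ) : ℤ) = -((h : ℤ) + 1) := by omega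
          refine ⟨-(((v : ℕ) : ℤ) - ((v' : ℕ) : ℤ)), by rw [abs_neg, abs_le]; constructor <;> omega, ?_⟩
          rw [e] at hrel
          push_cast at hrel ⊢
          linear_combination -hrel
        · have e : ((u : ℕ) : ℤ) - ((u' : ℕ) : ℤ) = ((h : ℤ) + 1) := by omega
          refine ⟨(((v : ℕ) : ℤ) - ((v' : ℕ) : ℤ)), by rw [abs_le]; constructor <;> omega, ?_⟩
          rw [e] at hrel
          exact hrel
    have R2 : ∃ x : ℤ, |x| ≤ h ∧ (x : ZMod n) * c + (((h : ℤ) + 1 : ℤ) : ZMod n) * d = 0 := by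
      have hcardlt : Fintype.card (ZMod n) < Fintype.card (Fin (h + 1) × Fin (h + 2)) := by
        rw [ZMod.card, Fintype.card_prod, Fintype.card_fin, Fintype.card_fin]
        nlinarith
      obtain ⟨⟨u, v⟩, ⟨u', v'⟩, hne', he⟩ := Fintype.exists_ne_map_eq_of_card_lt
        (fun p : Fin (h + 1) × Fin (h + 2) => ((p.1 : ℕ) : ZMod n) * c + ((p.2 : ℕ) : ZMod n) * d)
        hcardlt
      simp only at he
      have hu := u.2
      have hu' := u'.2
      have hv := v.2
      have hv' := v'.2
      have hrel : ((((u : ℕ) : ℤ) - ((u' : ℕ) : ℤ) : ℤ) : ZMod n) * c +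
          ((((v : ℕ) : ℤ) - ((v' : ℕ) : ℤ) : ℤ) : ZMod n) * d = 0 := by
        push_cast; linear_combination he
      by_cases hbig : |(((v : ℕ) : ℤ) - ((v' : ℕ) : ℤ))| ≤ h
      · exfalso
        obtain ⟨e1, e2⟩ := K _ _ (by rw [abs_le]; constructor <;> omega) hbig hrel
        apply hne'
        have f1 : u = u' := Fin.ext (by omega)
        have f2 : v = v' := Fin.ext (by omega)
        rw [f1, f2]
      · rw [abs_le, not_and_or] at hbig
        rcases hbig with hb | hb
        · have e : ((v : ℕ) : ℤ) - ((v' : ℕ) : ℤ) = -((h : ℤ) + 1) := by omega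
          refine ⟨-(((u : ℕ) : ℤ) - ((u' : ℕ) : ℤ)), by rw [abs_neg, abs_le]; constructor <;> omega, ?_⟩
          rw [e] at hrel
          push_cast at hrel ⊢
          linear_combination -hrel
        · have e : ((v : ℕ) : ℤ) - ((v' : ℕ) : ℤ) = ((h : ℤ) + 1) := by omega
          refine ⟨(((u : ℕ) : ℤ) - ((u' : ℕ) : ℤ)), by rw [abs_le]; constructor <;> omega, ?_⟩
          rw [e] at hrel
          exact hrel
    obtain ⟨y, hy, hy0⟩ := R1
    obtain ⟨x, hx, hx0⟩ := R2
    have even_of : ∀ z : ℤ, ((z : ℤ) : ZMod 2) = 0 → ∃ t, z = 2 * t := by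
      intro z hz
      exact (ZMod.intCast_zmod_eq_zero_iff_dvd z 2).1 hz
    obtain ⟨y2, hy2⟩ := even_of y (by
      have := congrArg φ hy0
      rw [map_add, map_mul, map_mul, map_intCast, map_intCast, ho, ho', hHe, map_zero] at this
      linear_combination this)
    obtain ⟨x2, hx2⟩ := even_of x (by
      have := congrArg φ hx0
      rw [map_add, map_mul, map_mul, map_intCast, map_intCast, ho, ho', hHe, map_zero] at this
      linear_combination this)
    obtain ⟨H2, hH2⟩ := even_of _ hHe
    -- `c`, `d` generate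
    have hgen : ∃ s t : ℤ, s • c + t • d = 1 := by
      rw [← AddSubgroup.mem_closure_pair]
      have hcl : (h + 1) ^ 2 ≤ Nat.card (AddSubgroup.closure {c, d} : AddSubgroup (ZMod n)) := by
        have hinj : Function.Injective (fun p : Fin (h + 1) × Fin (h + 1) =>
            (⟨((p.1 : ℕ) : ℤ) • c + ((p.2 : ℕ) : ℤ) • d,
              AddSubgroup.mem_closure_pair.2 ⟨_, _, rfl⟩⟩ :
              (AddSubgroup.closure {c, d} : AddSubgroup (ZMod n)))) := by
          rintro ⟨u, v⟩ ⟨u', v'⟩ he
          have he := congrArg Subtype.val he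
          simp only [zsmul_eq_mul] at he
          have hu := u.2
          have hu' := u'.2
          have hv := v.2
          have hv' := v'.2
          obtain ⟨e1, e2⟩ := K (((u : ℕ) : ℤ) - ((u' : ℕ) : ℤ)) (((v : ℕ) : ℤ) - ((v' : ℕ) : ℤ))
            (by rw [abs_le]; constructor <;> omega) (by rw [abs_le]; constructor <;> omega)
            (by push_cast at he ⊢; linear_combination he)
          have f1 : u = u' := Fin.ext (by omega)
          have f2 : v = v' := Fin.ext (by omega)
          rw [f1, f2]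
        have := Nat.card_le_card_of_injective _ hinj
        rw [Nat.card_prod, Nat.card_eq_fintype_card, Fintype.card_fin] at this
        rw [sq]
        exact this
      have hdv : Nat.card (AddSubgroup.closure {c, d} : AddSubgroup (ZMod n)) ∣ n := by
        have := AddSubgroup.card_addSubgroup_dvd_card
          (AddSubgroup.closure {c, d} : AddSubgroup (ZMod n))
        rwa [Nat.card_zmod] at this
      have hcard : Nat.card (AddSubgroup.closure {c, d} : AddSubgroup (ZMod n)) = n := by
        obtain ⟨k, hk⟩ := hdv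
        have hk1 : k = 1 := by
          by_contra hk1
          have hk0 : k ≠ 0 := by
            rintro rfl
            omega
          have : 2 ≤ k := by omega
          have h5 : Nat.card (AddSubgroup.closure {c, d} : AddSubgroup (ZMod n)) * 2 ≤
              Nat.card (AddSubgroup.closure {c, d} : AddSubgroup (ZMod n)) * k :=
            Nat.mul_le_mul_left _ this
          rw [← hk] at h5
          nlinarith
        rw [hk1, mul_one] at hk
        exact hk.symm
      have htop : (AddSubgroup.closure {c, d} : AddSubgroup (ZMod n)) = ⊤ := by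
        apply AddSubgroup.eq_top_of_card_eq
        rw [hcard, Nat.card_zmod]
      rw [htop]
      trivial
    obtain ⟨s, t, hst⟩ := hgen
    rw [zsmul_eq_mul, zsmul_eq_mul] at hst
    have ann : ∀ z : ℤ, (z : ZMod n) * c = 0 → (z : ZMod n) * d = 0 → (n : ℤ) ∣ z := by
      intro z h1 h2
      rw [← ZMod.intCast_zmod_eq_zero_iff_dvd]
      have : (z : ZMod n) * ((s : ZMod n) * c + (t : ZMod n) * d) = 0 := by
        linear_combination (s : ZMod n) * h1 + (t : ZMod n) * h2
      rwa [hst, mul_one] at this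
    have hD : (n : ℤ) ∣ ((h : ℤ) + 1) ^ 2 - x * y := by
      apply ann
      · push_cast at hy0 hx0 ⊢
        linear_combination ((h : ZMod n) + 1) * hy0 - (y : ZMod n) * hx0
      · push_cast at hy0 hx0 ⊢
        linear_combination ((h : ZMod n) + 1) * hx0 - (x : ZMod n) * hy0
    have hxy : |x * y| ≤ (h : ℤ) * h := by
      rw [abs_mul]
      exact mul_le_mul hx hy (abs_nonneg _) (by positivity)
    have hlow' : ((h : ℤ) + 1) ^ 2 ≤ n := by exact_mod_cast hlow
    have hDn : ((h : ℤ) + 1) ^ 2 - x * y = n := by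
      obtain ⟨k, hk⟩ := hD
      rw [abs_le] at hxy
      have hpos : 0 < ((h : ℤ) + 1) ^ 2 - x * y := by nlinarith [hxy.1, hxy.2]
      have hk1 : 0 < k := by
        by_contra hk0
        push Not at hk0
        rw [hk] at hpos
        nlinarith
      have hk2 : k < 2 := by
        by_contra hk0
        push Not at hk0
        nlinarith [hxy.1, hxy.2]
      have : k = 1 := by omega
      rw [hk, this, mul_one]
    -- the relation `d c - c d = 0`
    obtain ⟨C, hC⟩ : ∃ C : ℤ, (C : ZMod n) = c := ⟨(c.val : ℤ), by simp⟩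
    obtain ⟨D, hD'⟩ : ∃ D : ℤ, (D : ZMod n) = d := ⟨(d.val : ℤ), by simp⟩
    have d1 : (n : ℤ) ∣ D * y + C * ((h : ℤ) + 1) := by
      apply ann
      · push_cast at hy0 hx0 ⊢
        rw [hC, hD']
        linear_combination c * hy0
      · push_cast at hy0 hx0 ⊢
        rw [hC, hD']
        linear_combination d * hy0
    have d2 : (n : ℤ) ∣ D * ((h : ℤ) + 1) + C * x := by
      apply ann
      · push_cast at hy0 hx0 ⊢
        rw [hC, hD']
        linear_combination c * hx0
      · push_cast at hy0 hx0 ⊢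
        rw [hC, hD']
        linear_combination d * hx0
    obtain ⟨α, hα⟩ := d1
    obtain ⟨β, hβ⟩ := d2
    have hCn : C * (n : ℤ) = (n : ℤ) * (((h : ℤ) + 1) * α - y * β) := by
      have e1 : C * (n : ℤ) = ((h : ℤ) + 1) * (D * y + C * ((h : ℤ) + 1)) -
          y * (D * ((h : ℤ) + 1) + C * x) := by
        rw [← hDn]; ring
      rw [e1, hα, hβ]
      ring
    have hC2 : C = ((h : ℤ) + 1) * α - y * β := by
      have hn0 : (n : ℤ) ≠ 0 := by exact_mod_cast (by omega : n ≠ 0)
      apply mul_left_cancel₀ hn0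
      rw [← hCn]
      ring
    have hφC : ((C : ℤ) : ZMod 2) = 1 := by
      rw [← ho, ← hC, map_intCast]
    rw [hC2, hH2, hy2] at hφC
    push_cast at hφC
    rw [h22] at hφC
    ring_nf at hφC
    exact absurd hφC (by decide)

/-- Every finite abelian group with a two-element `B_h` set over `ℤ` has at least `(h+1)^2`
elements. The cyclic group `ℤ_n` has one iff `n ≥ (h+1)^2`, when `h` is even or `n` is odd, and
iff `n ≥ (h+1)(h+2)`, when `h` is odd and `n` is even. -/
theorem result :
    (∀ (G : Type) [AddCommGroup G] [Finite G] (h : ℕ), HasBh G h 2 → (h + 1) ^ 2 ≤ Nat.card G) ∧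
    (∀ n h : ℕ, 1 ≤ n → 1 ≤ h → (Even h ∨ Odd n) → (HasBh (ZMod n) h 2 ↔ (h + 1) ^ 2 ≤ n)) ∧
    ∀ n h : ℕ, 1 ≤ n → Odd h → Even n → (HasBh (ZMod n) h 2 ↔ (h + 1) * (h + 2) ≤ n) := by
  refine ⟨fun _ _ _ _ H => lower H, fun _ _ hn hh hp => cyclic hn hh hp, ?_⟩
  intro n h hn hh hne
  refine ⟨lower_odd hn hh hne, fun hle => ?_⟩
  obtain ⟨k, hk⟩ := hh
  refine upper_odd (by omega) hle ((k : ZMod n) + 2) (-(k : ZMod n) - 1) (by ring) ?_
  subst hk
  push_cast
  ring

end Pool.Agent.Results.MP_824cb5_co.TwoElements
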